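import Pool.Agent.Helper44.NCSpiralPath

/-!
# The spiral potential: module S3 (`SpiralLyapunov`)
-/

set_option autoImplicit false

namespace Pool.Agent.Helper44.NCL

open Pool.Agent.Helper79.NC
open scoped ContDiff Topology

/-! ### Second derivatives and quadratic growth -/

/-- one variable -/
theorem second_deriv_ge {g : ℝ → ℝ} {k : ℝ} (hg : ContDiffAt ℝ 2 g 0)
    (h : ∀ᶠ s in 𝓝 (0 : ℝ), g 0 + k * s ^ 2 ≤ g s) : 2 * k ≤ deriv (deriv g) 0 := by
  set f : ℝ → ℝ := fun s => g s - k * s ^ 2 with hf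
  have hmin : IsLocalMin f 0 := by
    filter_upwards [h] with s hs
    simp only [hf]
    nlinarith
  have hgd : ∀ᶠ s in 𝓝 (0 : ℝ), DifferentiableAt ℝ g s := by
    have := hg.eventually (by simp)
    filter_upwards [this] with s hs
    exact hs.differentiableAt (by norm_num)
  have hfd : ∀ᶠ s in 𝓝 (0 : ℝ), deriv f s = deriv g s - 2 * k * s := by
    filter_upwards [hgd] with s hs
    have h1 : HasDerivAt (fun s : ℝ => k * s ^ 2) (2 * k * s) s := by
      have h2 := (hasDerivAt_pow 2 s).const_mul k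
      have h3 : k * (((2 : ℕ) : ℝ) * s ^ (2 - 1)) = 2 * k * s := by norm_num; ring
      rw [h3] at h2
      exact h2
    exact (hs.hasDerivAt.sub h1).deriv
  have hf2 : deriv (deriv f) 0 = deriv (deriv g) 0 - 2 * k := by
    rw [Filter.EventuallyEq.deriv_eq hfd]
    have h1 : DifferentiableAt ℝ (deriv g) 0 := by
      have h2 : ContDiffAt ℝ 1 (deriv g) 0 := by
        have h3 : ContDiffAt ℝ 1 (fderiv ℝ g) 0 := hg.fderiv_right (by norm_num)
        have h4 : ContDiffAt ℝ 1 (fun s => fderiv ℝ g s 1) 0 := h3.clm_apply contDiffAt_const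
        exact h4
      exact h2.differentiableAt (by norm_num)
    have h2 : HasDerivAt (fun s : ℝ => 2 * k * s) (2 * k) 0 := by
      simpa using (hasDerivAt_id (0 : ℝ)).const_mul (2 * k)
    exact (h1.hasDerivAt.sub h2).deriv
  by_contra hlt
  push Not at hlt
  have hneg : deriv (deriv f) 0 < 0 := by rw [hf2]; linarith
  have hmax : IsLocalMax f 0 := by
    refine isLocalMax_of_deriv_deriv_neg hneg hmin.deriv_eq_zero ?_
    exact hg.continuousAt.sub (by fun_prop)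
  have hconst : f =ᶠ[𝓝 0] fun _ => f 0 := by
    filter_upwards [hmin, hmax] with s h1 h2
    exact le_antisymm h2 h1
  have h0 : deriv f =ᶠ[𝓝 0] fun _ => (0 : ℝ) := by
    have := hconst.deriv
    filter_upwards [this] with s hs
    rw [hs]; simp
  have : deriv (deriv f) 0 = 0 := by
    rw [h0.deriv_eq]; simp
  linarith

theorem ev_norm_sub {E G : Type*} [NormedAddCommGroup E] [NormedSpace ℝ E] [NormedAddCommGroup G]
    [NormedSpace ℝ G] {F : E → G} {z : E} (h : ContDiffAt ℝ 0 F z) {k : ℝ} (hk : 0 < k) :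
    ∀ᶠ x in 𝓝 z, ‖F x - F z‖ < k := by
  have h3 : ContinuousAt (fun x => ‖F x - F z‖) z :=
    (h.continuousAt.sub continuousAt_const).norm
  have h4 : ‖F z - F z‖ < k := by simpa using hk
  exact h3.eventually_lt_const h4

/-- A `C²` function which grows quadratically at `z` is strictly convex near `z`. -/
theorem hess_pos {E : Type*} [NormedAddCommGroup E] [NormedSpace ℝ E] {V : E → ℝ} {z : E} {k : ℝ}
    (hk : 0 < k) (hV : ContDiffAt ℝ 2 V z) (h : ∀ᶠ x in 𝓝 z, V z + k * ‖x - z‖ ^ 2 ≤ V x) :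
    ∀ᶠ x in 𝓝 z, ∀ X : E, X ≠ 0 → 0 < fderiv ℝ (fderiv ℝ V) x X X := by
  have h1 : ContDiffAt ℝ 1 (fderiv ℝ V) z := hV.fderiv_right (by norm_num)
  have h2 : ContDiffAt ℝ 0 (fderiv ℝ (fderiv ℝ V)) z := h1.fderiv_right (by norm_num)
  have hz : ∀ X : E, 2 * k * ‖X‖ ^ 2 ≤ fderiv ℝ (fderiv ℝ V) z X X := by
    intro X
    set L : ℝ → E := fun s => z + s • X with hL
    have hLc : ContDiff ℝ ∞ L := by fun_prop
    have hL0 : L 0 = z := by simp [hL]
    have hLd : ∀ s, HasDerivAt L X s := by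
      intro s
      have := ((hasDerivAt_id s).smul_const X).const_add z
      simpa [hL] using this
    have hLt : Filter.Tendsto L (𝓝 0) (𝓝 z) := by
      have := hLc.continuous.tendsto 0
      rwa [hL0] at this
    have hg : ContDiffAt ℝ 2 (fun s => V (L s)) 0 := by
      refine ContDiffAt.comp 0 (by rw [hL0]; exact hV) ?_
      exact (hLc.of_le (by norm_cast)).contDiffAt
    have hev : ∀ᶠ s in 𝓝 (0 : ℝ), V (L 0) + (k * ‖X‖ ^ 2) * s ^ 2 ≤ V (L s) := by
      filter_upwards [hLt.eventually h] with s hs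
      rw [hL0]
      have : ‖L s - z‖ ^ 2 = ‖X‖ ^ 2 * s ^ 2 := by
        simp only [hL, add_sub_cancel_left, norm_smul, mul_pow, Real.norm_eq_abs, sq_abs]
        ring
      rw [this] at hs
      linarith
    have h3 := second_deriv_ge (g := fun s => V (L s)) hg hev
    have hVd : ∀ᶠ x in 𝓝 z, DifferentiableAt ℝ V x := by
      have := hV.eventually (by simp)
      filter_upwards [this] with s hs
      exact hs.differentiableAt (by norm_num)
    have h4 : deriv (fun s => V (L s)) =ᶠ[𝓝 0] fun s => fderiv ℝ V (L s) X := by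
      filter_upwards [hLt.eventually hVd] with s hs
      exact (hs.hasFDerivAt.comp_hasDerivAt s (hLd s)).deriv
    have h5 : deriv (deriv (fun s => V (L s))) 0 = fderiv ℝ (fderiv ℝ V) z X X := by
      rw [h4.deriv_eq]
      have h6 : HasFDerivAt (fderiv ℝ V) (fderiv ℝ (fderiv ℝ V) z) (L 0) := by
        rw [hL0]; exact (h1.differentiableAt (by norm_num)).hasFDerivAt
      have h7 : HasDerivAt (fun s => fderiv ℝ V (L s)) (fderiv ℝ (fderiv ℝ V) z X) 0 :=
        h6.comp_hasDerivAt 0 (hLd 0)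
      exact (h7.clm_apply (hasDerivAt_const _ X)).deriv.trans (by simp)
    rw [h5] at h3
    linarith
  have hev : ∀ᶠ x in 𝓝 z, ‖fderiv ℝ (fderiv ℝ V) x - fderiv ℝ (fderiv ℝ V) z‖ < k :=
    ev_norm_sub h2 hk
  filter_upwards [hev] with x hx X hX
  have hXn : 0 < ‖X‖ := norm_pos_iff.mpr hX
  have h3 : |(fderiv ℝ (fderiv ℝ V) x - fderiv ℝ (fderiv ℝ V) z) X X| ≤ k * ‖X‖ ^ 2 := by
    have h4 := (fderiv ℝ (fderiv ℝ V) x - fderiv ℝ (fderiv ℝ V) z).le_opNorm₂ X X
    rw [Real.norm_eq_abs] at h4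
    have h5 : ‖fderiv ℝ (fderiv ℝ V) x - fderiv ℝ (fderiv ℝ V) z‖ * ‖X‖ * ‖X‖ ≤ k * ‖X‖ ^ 2 := by
      rw [mul_assoc, ← sq]
      exact mul_le_mul_of_nonneg_right hx.le (by positivity)
    linarith
  have h6 := (abs_le.mp h3).1
  have h7 := hz X
  have h8 : (fderiv ℝ (fderiv ℝ V) x - fderiv ℝ (fderiv ℝ V) z) X X =
    fderiv ℝ (fderiv ℝ V) x X X - fderiv ℝ (fderiv ℝ V) z X X := by simp
  rw [h8] at h6
  have h9 : 0 < k * ‖X‖ ^ 2 := by positivity
  linarith

/-! ### The moving frame -/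

/-- `Y ↦ Y · e_r` -/
noncomputable def radF (x : ℂ) : ℂ →L[ℝ] ℝ :=
  (x.re / ‖x‖) • Complex.reCLM + (x.im / ‖x‖) • Complex.imCLM

/-- `Y ↦ Y · e_α` -/
noncomputable def angF (x : ℂ) : ℂ →L[ℝ] ℝ :=
  (x.re / ‖x‖) • Complex.imCLM - (x.im / ‖x‖) • Complex.reCLM

theorem radF_apply (x Y : ℂ) : radF x Y = (x.re / ‖x‖) * Y.re + (x.im / ‖x‖) * Y.im := by
  simp [radF]

theorem angF_apply (x Y : ℂ) : angF x Y = (x.re / ‖x‖) * Y.im - (x.im / ‖x‖) * Y.re := by
  simp [angF]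

theorem unit_frame {x : ℂ} (hx : x ≠ 0) : (x.re / ‖x‖) ^ 2 + (x.im / ‖x‖) ^ 2 = 1 := by
  have hn : ‖x‖ ≠ 0 := norm_ne_zero_iff.mpr hx
  have h1 : x.re ^ 2 + x.im ^ 2 = ‖x‖ ^ 2 := by
    rw [← Complex.normSq_eq_norm_sq, Complex.normSq_apply]; ring
  rw [div_pow, div_pow, ← add_div, h1, div_self (pow_ne_zero 2 hn)]

theorem normSq_frame {x : ℂ} (hx : x ≠ 0) (Y : ℂ) :
    ‖Y‖ ^ 2 = radF x Y ^ 2 + angF x Y ^ 2 := by
  have h1 := unit_frame hx
  rw [← Complex.normSq_eq_norm_sq, Complex.normSq_apply, radF_apply, angF_apply]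
  have : (x.re / ‖x‖ * Y.re + x.im / ‖x‖ * Y.im) ^ 2 + (x.re / ‖x‖ * Y.im - x.im / ‖x‖ * Y.re) ^ 2
    = ((x.re / ‖x‖) ^ 2 + (x.im / ‖x‖) ^ 2) * (Y.re * Y.re + Y.im * Y.im) := by ring
  rw [this, h1, one_mul]

theorem hasFDerivAt_norm' {x : ℂ} (hx : x ≠ 0) :
    HasFDerivAt (fun w : ℂ => ‖w‖) (radF x) x := by
  have hn : ‖x‖ ≠ 0 := norm_ne_zero_iff.mpr hx
  have h0 : (fun w : ℂ => ‖w‖) = fun w : ℂ => Real.sqrt (w.re * w.re + w.im * w.im) := by
    funext w
    rw [← Complex.normSq_apply, ← Complex.norm_def]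
  have h1 : Real.sqrt (x.re * x.re + x.im * x.im) = ‖x‖ := by
    rw [← Complex.normSq_apply, ← Complex.norm_def]
  have h2 : x.re * x.re + x.im * x.im ≠ 0 := by
    intro h
    rw [h, Real.sqrt_zero] at h1
    exact hn h1.symm
  rw [h0]
  have hre : HasFDerivAt (fun w : ℂ => w.re) Complex.reCLM x := Complex.reCLM.hasFDerivAt
  have him : HasFDerivAt (fun w : ℂ => w.im) Complex.imCLM x := Complex.imCLM.hasFDerivAt
  have h3' : HasFDerivAt (fun w : ℂ => w.re * w.re + w.im * w.im)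
      (x.re • Complex.reCLM + x.re • Complex.reCLM +
        (x.im • Complex.imCLM + x.im • Complex.imCLM)) x := (hre.mul hre).add (him.mul him)
  have h3 := h3'.sqrt h2
  refine h3.congr_fderiv (ContinuousLinearMap.ext fun Y => ?_)
  rw [radF_apply, h1]
  simp only [smul_apply, add_apply, Complex.reCLM_apply, Complex.imCLM_apply, smul_eq_mul]
  field_simp
  ring

/-- derivative of the inverse `1/(|w|-1)` -/
noncomputable def dTh (x : ℂ) : ℂ →L[ℝ] ℝ :=
  (1 / ‖x‖) • angF x + (1 / (‖x‖ - 1) ^ 2) • radF x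

theorem dTh_apply (x Y : ℂ) :
    dTh x Y = (1 / ‖x‖) * angF x Y + (1 / (‖x‖ - 1) ^ 2) * radF x Y := by
  simp [dTh]

theorem ne_of_one_lt {x : ℂ} (hx : 1 < ‖x‖) : x ≠ 0 := by
  intro h; rw [h] at hx; simp at hx; linarith

theorem hasFDerivAt_inv {x : ℂ} (hx : 1 < ‖x‖) :
    HasFDerivAt (fun w : ℂ => 1 / (‖w‖ - 1)) (-((1 / (‖x‖ - 1) ^ 2) • radF x)) x := by
  have hne := ne_of_one_lt hx
  have h1 : ‖x‖ - 1 ≠ 0 := by linarith
  have h2 : HasFDerivAt (fun w : ℂ => ‖w‖ - 1) (radF x) x := (hasFDerivAt_norm' hne).sub_const 1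
  have h3 := (hasDerivAt_inv h1).comp_hasFDerivAt x h2
  have h4 : (fun w : ℂ => 1 / (‖w‖ - 1)) = Inv.inv ∘ fun w : ℂ => ‖w‖ - 1 := by
    funext w; simp
  rw [h4]
  refine h3.congr_fderiv ?_
  rw [neg_smul, one_div]

theorem hasFDerivAt_cS {x : ℂ} (hx : 1 < ‖x‖) : HasFDerivAt cS (-(uS x • dTh x)) x := by
  have hne := ne_of_one_lt hx
  have hn : ‖x‖ ≠ 0 := norm_ne_zero_iff.mpr hne
  have h1 : ‖x‖ - 1 ≠ 0 := by linarith
  have hi := hasFDerivAt_inv hx
  have hr := hasFDerivAt_norm' hne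
  have hre : HasFDerivAt (fun w : ℂ => w.re) Complex.reCLM x := Complex.reCLM.hasFDerivAt
  have him : HasFDerivAt (fun w : ℂ => w.im) Complex.imCLM x := Complex.imCLM.hasFDerivAt
  have h0 : cS = fun w : ℂ =>
      (w.re * Real.cos (1 / (‖w‖ - 1)) + w.im * Real.sin (1 / (‖w‖ - 1))) * ‖w‖⁻¹ := by
    funext w; rw [cS_eq, div_eq_mul_inv]
  have h2 := ((hre.mul hi.cos).add (him.mul hi.sin)).mul
    ((hasDerivAt_inv hn).comp_hasFDerivAt x hr)
  rw [h0]
  refine h2.congr_fderiv (ContinuousLinearMap.ext fun Y => ?_)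
  have hsq : x.re ^ 2 + x.im ^ 2 = ‖x‖ ^ 2 := by
    rw [← Complex.normSq_eq_norm_sq, Complex.normSq_apply]; ring
  simp only [add_apply, smul_apply, neg_apply, smul_eq_mul, dTh_apply, uS_eq,
    Complex.reCLM_apply, Complex.imCLM_apply, angF_apply, radF_apply, Pi.add_apply, Pi.mul_apply,
    Function.comp]
  generalize Real.sin (1 / (‖x‖ - 1)) = S
  generalize Real.cos (1 / (‖x‖ - 1)) = C
  generalize 1 / (‖x‖ - 1) ^ 2 = a
  generalize ‖x‖ = n at *
  rw [← sub_eq_zero]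
  have h5 : n ^ 2 - (x.re ^ 2 + x.im ^ 2) = 0 := by rw [hsq, sub_self]
  have h6 : (0 : ℝ) = (C * Y.re + S * Y.im) * (n ^ 2 - (x.re ^ 2 + x.im ^ 2)) / n ^ 3 := by
    rw [h5]; simp
  rw [h6]
  field_simp
  ring

theorem hasFDerivAt_uS {x : ℂ} (hx : 1 < ‖x‖) : HasFDerivAt uS (cS x • dTh x) x := by
  have hne := ne_of_one_lt hx
  have hn : ‖x‖ ≠ 0 := norm_ne_zero_iff.mpr hne
  have h1 : ‖x‖ - 1 ≠ 0 := by linarith
  have hi := hasFDerivAt_inv hx
  have hr := hasFDerivAt_norm' hne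
  have hre : HasFDerivAt (fun w : ℂ => w.re) Complex.reCLM x := Complex.reCLM.hasFDerivAt
  have him : HasFDerivAt (fun w : ℂ => w.im) Complex.imCLM x := Complex.imCLM.hasFDerivAt
  have h0 : uS = fun w : ℂ =>
      (w.im * Real.cos (1 / (‖w‖ - 1)) - w.re * Real.sin (1 / (‖w‖ - 1))) * ‖w‖⁻¹ := by
    funext w; rw [uS_eq, div_eq_mul_inv]
  have h2 := ((him.mul hi.cos).sub (hre.mul hi.sin)).mul
    ((hasDerivAt_inv hn).comp_hasFDerivAt x hr)
  rw [h0]
  refine h2.congr_fderiv (ContinuousLinearMap.ext fun Y => ?_)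
  have hsq : x.re ^ 2 + x.im ^ 2 = ‖x‖ ^ 2 := by
    rw [← Complex.normSq_eq_norm_sq, Complex.normSq_apply]; ring
  simp only [add_apply, sub_apply, smul_apply, neg_apply, smul_eq_mul, dTh_apply, cS_eq,
    Complex.reCLM_apply, Complex.imCLM_apply, angF_apply, radF_apply, Pi.mul_apply,
    Pi.sub_apply, Function.comp]
  generalize Real.sin (1 / (‖x‖ - 1)) = S
  generalize Real.cos (1 / (‖x‖ - 1)) = C
  generalize 1 / (‖x‖ - 1) ^ 2 = a
  generalize ‖x‖ = n at *
  rw [← sub_eq_zero]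
  have h5 : n ^ 2 - (x.re ^ 2 + x.im ^ 2) = 0 := by rw [hsq, sub_self]
  have h6 : (0 : ℝ) = (C * Y.im - S * Y.re) * (n ^ 2 - (x.re ^ 2 + x.im ^ 2)) / n ^ 3 := by
    rw [h5]; simp
  rw [h6]
  field_simp
  ring

/-! ### Derivatives of `τ`, of `T` and of the potential -/

theorem hasDerivAt_spLam (t : ℝ) : HasDerivAt spLam (deriv spLam t) t := by
  have : Differentiable ℝ spLam := by
    have h1 : ContDiff ℝ ∞ spLam :=
      Real.smoothTransition.contDiff.comp (by fun_prop)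
    exact h1.differentiable (by norm_num)
  exact (this t).hasDerivAt

/-- the derivative of `τ` -/
noncomputable def dTau (x : ℂ) : ℂ →L[ℝ] ℝ :=
  (deriv spLam (‖x‖ - 1) * cS x) • radF x + ((1 - spLam (‖x‖ - 1)) * uS x) • dTh x

theorem hasFDerivAt_spTau {x : ℂ} (hx : 1 < ‖x‖) : HasFDerivAt spTau (dTau x) x := by
  have hne := ne_of_one_lt hx
  have hr : HasFDerivAt (fun w : ℂ => ‖w‖ - 1) (radF x) x := (hasFDerivAt_norm' hne).sub_const 1
  have h1 := (hasDerivAt_spLam (‖x‖ - 1)).comp_hasFDerivAt x hr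
  have h2 := ((h1.const_sub 1).mul (hasFDerivAt_cS hx)).const_sub 1
  refine (show HasFDerivAt spTau _ x from h2).congr_fderiv (ContinuousLinearMap.ext fun Y => ?_)
  simp only [dTau, add_apply, smul_apply, neg_apply, smul_eq_mul, Function.comp]
  ring

/-- `b(r) = t² r²/(r² + t⁴)`, `t = r - 1`. -/
noncomputable def bF (r : ℝ) : ℝ := (r - 1) ^ 2 * r ^ 2 / (r ^ 2 + (r - 1) ^ 4)

theorem bF_den_pos {r : ℝ} (hr : 1 < r) : 0 < r ^ 2 + (r - 1) ^ 4 := by
  have : 0 < r - 1 := by linarith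
  positivity

theorem bF_contDiffAt {r : ℝ} (hr : 1 < r) : ContDiffAt ℝ ∞ bF r := by
  unfold bF
  exact ContDiffAt.div (by fun_prop) (by fun_prop) (bF_den_pos hr).ne'

/-- the second coordinate -/
noncomputable def TF (t₁ : ℝ) (w : ℂ) : ℝ := ‖w‖ - 1 - t₁ - bF ‖w‖ * uS w

noncomputable def dTF (x : ℂ) : ℂ →L[ℝ] ℝ :=
  (1 - deriv bF ‖x‖ * uS x) • radF x - (bF ‖x‖ * cS x) • dTh x

theorem hasFDerivAt_TF (t₁ : ℝ) {x : ℂ} (hx : 1 < ‖x‖) : HasFDerivAt (TF t₁) (dTF x) x := by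
  have hne := ne_of_one_lt hx
  have hr := hasFDerivAt_norm' hne
  have hb : HasDerivAt bF (deriv bF ‖x‖) ‖x‖ :=
    ((bF_contDiffAt hx).differentiableAt (by norm_num)).hasDerivAt
  have h1 := hb.comp_hasFDerivAt x hr
  have h2 := ((hr.sub_const 1).sub_const t₁).sub (h1.mul (hasFDerivAt_uS hx))
  refine (show HasFDerivAt (TF t₁) _ x from h2).congr_fderiv
    (ContinuousLinearMap.ext fun Y => ?_)
  simp only [dTF, add_apply, sub_apply, smul_apply, smul_eq_mul, Function.comp]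
  ring

/-- the Lyapunov function -/
noncomputable def VF (t₁ : ℝ) (w : ℂ) : ℝ := spTau w + 1 / 200 * TF t₁ w ^ 2

theorem hasFDerivAt_VF (t₁ : ℝ) {x : ℂ} (hx : 1 < ‖x‖) :
    HasFDerivAt (VF t₁) (dTau x + (1 / 100 * TF t₁ x) • dTF x) x := by
  have h1 := (hasFDerivAt_spTau hx).add (((hasFDerivAt_TF t₁ hx).pow 2).const_mul (1 / 200))
  refine (show HasFDerivAt (VF t₁) _ x from h1).congr_fderiv
    (ContinuousLinearMap.ext fun Y => ?_)
  simp only [add_apply, smul_apply, smul_eq_mul]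
  norm_num
  ring

/-- the derivative of the potential -/
theorem hasFDerivAt_spiral (N K : ℝ) {x : ℂ} (hx : 1 < ‖x‖) (hτ : 0 < spTau x) :
    HasFDerivAt (spiral N K)
      ((spiral N K x * N) • ((7 * K * ((‖x‖ - 1) ^ 8)⁻¹) • radF x + ((spTau x) ^ 2)⁻¹ • dTau x))
      x := by
  have hne := ne_of_one_lt hx
  have hr : HasFDerivAt (fun w : ℂ => ‖w‖ - 1) (radF x) x := (hasFDerivAt_norm' hne).sub_const 1
  have ht : ‖x‖ - 1 ≠ 0 := by linarith
  have h1 : HasDerivAt (fun t : ℝ => (t ^ 7)⁻¹) (-(7 * ((‖x‖ - 1) ^ 8)⁻¹)) (‖x‖ - 1) := by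
    have := (hasDerivAt_pow 7 (‖x‖ - 1)).inv (pow_ne_zero 7 ht)
    refine this.congr_deriv ?_
    push_cast
    field_simp
  have h2 := h1.comp_hasFDerivAt x hr
  have h3 : HasFDerivAt (fun w => (spTau w)⁻¹) _ x :=
    (hasDerivAt_inv hτ.ne').comp_hasFDerivAt x (hasFDerivAt_spTau hx)
  have h4' : HasFDerivAt (fun w : ℂ => -(N * (K * ((‖w‖ - 1) ^ 7)⁻¹ + (spTau w)⁻¹))) _ x :=
    (((h2.const_mul K).add h3).const_mul N).neg
  have h4 := h4'.exp
  have hev : spiral N K =ᶠ[𝓝 x] fun w : ℂ =>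
      Real.exp (-(N * (K * ((‖w‖ - 1) ^ 7)⁻¹ + (spTau w)⁻¹))) := by
    have e1 : ∀ᶠ w : ℂ in 𝓝 x, 1 < ‖w‖ := continuous_norm.continuousAt.eventually_const_lt hx
    have e2 : ∀ᶠ w : ℂ in 𝓝 x, 0 < spTau w :=
      (hasFDerivAt_spTau hx).continuousAt.eventually_const_lt hτ
    filter_upwards [e1, e2] with w h5 h6
    unfold spiral
    rw [if_neg (not_le.mpr h5), if_neg (not_le.mpr h6)]
  have h7 := hev.eq_of_nhds
  refine (HasFDerivAt.congr_of_eventuallyEq h4 hev).congr_fderiv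
    (ContinuousLinearMap.ext fun Y => ?_)
  simp only [add_apply, smul_apply, neg_apply, smul_eq_mul, Function.comp, h7]
  ring

/-! ### The cut-off `λ` -/

theorem hasDerivAt_glue (x : ℝ) :
    HasDerivAt expNegInvGlue ((x⁻¹) ^ 2 * expNegInvGlue x) x := by
  have h := expNegInvGlue.hasDerivAt_polynomial_eval_inv_mul 1 x
  simpa using h

theorem deriv_smoothTransition_ge {x : ℝ} (hx0 : 0 < x) (hx : x ≤ 1 / 2) :
    2 * Real.smoothTransition x ≤ deriv Real.smoothTransition x := by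
  have h1 := hasDerivAt_glue x
  have h2 : HasDerivAt (fun y : ℝ => expNegInvGlue (1 - y))
      (-(((1 - x)⁻¹) ^ 2 * expNegInvGlue (1 - x))) x := by
    have h3 := (hasDerivAt_glue (1 - x)).comp x ((hasDerivAt_id x).const_sub 1)
    refine (show HasDerivAt (fun y : ℝ => expNegInvGlue (1 - y)) _ x from h3).congr_deriv ?_
    ring
  have hD := Real.smoothTransition.pos_denom x
  have h4 := h1.div (h1.add h2) hD.ne'
  have h5 : deriv Real.smoothTransition x = _ :=
    (show HasDerivAt Real.smoothTransition _ x from h4).deriv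
  rw [h5]
  set f := expNegInvGlue x with hf
  set g := expNegInvGlue (1 - x) with hg
  have hf0 : 0 ≤ f := expNegInvGlue.nonneg x
  have hg0 : 0 ≤ g := expNegInvGlue.nonneg _
  have hfg : f ≤ g := expNegInvGlue.monotone (by linarith)
  have hST : Real.smoothTransition x = f / (f + g) := rfl
  simp only [Pi.add_apply]
  rw [hST, le_div_iff₀ (by positivity)]
  have h6 : 4 ≤ (x⁻¹) ^ 2 := by
    have : 2 ≤ x⁻¹ := by
      rw [le_inv_comm₀ (by norm_num) hx0]
      linarith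
    nlinarith
  have h7 : 0 ≤ ((1 - x)⁻¹) ^ 2 := sq_nonneg _
  have h8 : 2 * (f / (f + g)) * (f + g) ^ 2 = 2 * f * (f + g) := by
    field_simp
  rw [h8]
  have h9 : 0 ≤ ((1 - x)⁻¹) ^ 2 * (f * g) := by positivity
  have h10 : 4 * (f * g) ≤ (x⁻¹) ^ 2 * (f * g) :=
    mul_le_mul_of_nonneg_right h6 (by positivity)
  nlinarith

theorem spLam_mono : Monotone spLam := fun a b h =>
  Real.smoothTransition.monotone (by linarith)

theorem deriv_spLam_eq (t : ℝ) : deriv spLam t = 4 * deriv Real.smoothTransition (4 * t - 2) := by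
  have h1 : HasDerivAt Real.smoothTransition (deriv Real.smoothTransition (4 * t - 2))
      (4 * t - 2) := by
    have h2 : ContDiff ℝ ∞ Real.smoothTransition := Real.smoothTransition.contDiff
    exact (h2.differentiable (by norm_num) _).hasDerivAt
  have h3 : HasDerivAt (fun t : ℝ => 4 * t - 2) 4 t := by
    simpa using ((hasDerivAt_id t).const_mul 4).sub_const 2
  have h4 := h1.comp t h3
  rw [(show HasDerivAt spLam _ t from h4).deriv]
  ring

theorem deriv_spLam_nonneg (t : ℝ) : 0 ≤ deriv spLam t := spLam_mono.deriv_nonneg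

theorem deriv_spLam_zero {t : ℝ} (h : t ≤ 1 / 2) : deriv spLam t = 0 := by
  have h1 : IsLocalMin spLam t := by
    filter_upwards with s
    rw [spLam_zero h]
    exact spLam_nonneg s
  exact h1.deriv_eq_zero

theorem spLam_le_deriv {t : ℝ} (h : t ≤ 5 / 8) : spLam t ≤ 2 * deriv spLam t := by
  rcases le_or_gt t (1 / 2) with h1 | h1
  · rw [spLam_zero h1, deriv_spLam_zero h1]; simp
  · have h2 := deriv_smoothTransition_ge (x := 4 * t - 2) (by linarith) (by linarith)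
    have h3 : spLam t = Real.smoothTransition (4 * t - 2) := rfl
    have h4 := spLam_nonneg t
    rw [deriv_spLam_eq, h3] at *
    linarith

/-! ### The main inequality -/

theorem key_ineq {r a lam l' c u b b' X T τ t₁ : ℝ} (hr1 : 1 < r) (hr2 : r ≤ 2)
    (ha : a = 1 / (r - 1) ^ 2) (huc : u ^ 2 + c ^ 2 = 1) (hc : 1 / 2 ≤ c)
    (hlam0 : 0 ≤ lam) (hlam1 : lam ≤ 1 / 2) (hl'0 : 0 ≤ l') (hlaml' : lam ≤ 2 * l')
    (hb0 : 0 ≤ b) (hb1 : b ≤ 1 / 2) (hab : a * b ≤ 1) (hba : b * (a ^ 2 + 1 / r ^ 2) = a)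
    (hn0 : 0 ≤ 1 - b' * u - b * c * a) (hn2 : 1 - b' * u - b * c * a ≤ 2)
    (hτ : τ = 1 - (1 - lam) * c) (hX : 0 ≤ X)
    (hT : T = (r - 1 - t₁) - b * u) (ht₁ : t₁ ≤ 1 / 2) (hl'z : r - 1 ≤ 1 / 2 → l' = 0)
    (h1 : |T| * a * (|u| + |b'|) ≤ 1) (h2 : τ * X * (4 + 4 * a * r) ≤ 1 / 8)
    (h3 : |T| * X * (4 + 4 * a * r) ^ 2 ≤ 1) :
    0 ≤ ((1 - lam) * u / r) * ((1 - lam) * u / r + 1 / 100 * T * (-(b * c) / r)) +
      (((1 - lam) * u * a + l' * c) + τ ^ 2 * X) *
        (((1 - lam) * u * a + l' * c) + 1 / 100 * T * (1 - b' * u - b * c * a)) := by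
  have ha0 : 0 < a := by
    rw [ha]; have : 0 < r - 1 := by linarith
    positivity
  have hc1 : c ≤ 1 := by nlinarith [sq_nonneg u]
  have hu1 : |u| ≤ 1 := by
    rw [abs_le]; constructor <;> nlinarith [sq_nonneg c]
  set p := (1 - lam) * u / r with hp
  set q := (1 - lam) * u * a + l' * c with hq
  set n := 1 - b' * u - b * c * a with hn
  set M := 4 + 4 * a * r with hM
  have har : 0 ≤ a * r := mul_nonneg ha0.le (by linarith)
  have hM0 : 4 ≤ M := by rw [hM]; linarith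
  have hup : |u| ≤ 4 * |p| := by
    have h4 : u * (1 - lam) = p * r := by rw [hp]; field_simp
    have h5 : |u| * (1 - lam) = |p| * r := by
      have := congrArg abs h4
      rwa [abs_mul, abs_mul, abs_of_nonneg (by linarith : 0 ≤ 1 - lam),
        abs_of_nonneg (by linarith : (0 : ℝ) ≤ r)] at this
    have h6 : |u| * (1 / 2) ≤ |u| * (1 - lam) :=
      mul_le_mul_of_nonneg_left (by linarith) (abs_nonneg u)
    have h7 : |p| * r ≤ |p| * 2 := mul_le_mul_of_nonneg_left hr2 (abs_nonneg p)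
    linarith
  have hlc : l' * c ≤ |q| + a * r * |p| := by
    have h4 : l' * c = q - a * r * p := by rw [hq, hp]; field_simp; ring
    rw [h4]
    have h5 := le_abs_self q
    have h6 := neg_abs_le p
    have h7 : -(a * r * p) ≤ a * r * |p| := by
      have := mul_le_mul_of_nonneg_left h6 har
      linarith
    linarith
  have hτ0 : 0 ≤ τ := by
    rw [hτ]
    have : (1 - lam) * c ≤ 1 * 1 := mul_le_mul (by linarith) hc1 (by linarith) (by norm_num)
    linarith
  have hτM : τ ≤ M * (|p| + |q|) := by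
    have h4 : τ ≤ lam + u ^ 2 := by
      rw [hτ]
      have h6 : lam * c ≤ lam * 1 := mul_le_mul_of_nonneg_left hc1 hlam0
      have h7 : 0 ≤ (1 - c) * c := mul_nonneg (by linarith) (by linarith)
      linarith
    have h5 : u ^ 2 ≤ 4 * |p| := by
      have h6 : u ^ 2 = |u| * |u| := by rw [← sq, sq_abs]
      rw [h6]
      have h7 : |u| * |u| ≤ |u| * 1 := mul_le_mul_of_nonneg_left hu1 (abs_nonneg u)
      linarith
    have h6 : lam ≤ 4 * (l' * c) := by
      have := mul_le_mul_of_nonneg_left hc hl'0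
      linarith
    have h7 : τ ≤ 4 * |q| + 4 * (a * r * |p|) + 4 * |p| := by linarith
    have h8 : 0 ≤ a * r * |q| := mul_nonneg har (abs_nonneg q)
    have h9 : M * (|p| + |q|) = 4 * |q| + 4 * (a * r * |p|) + 4 * |p| + 4 * (a * r * |q|) := by
      rw [hM]; ring
    linarith
  have hpq : p ^ 2 = |p| ^ 2 := (sq_abs p).symm
  have hqq : q ^ 2 = |q| ^ 2 := (sq_abs q).symm
  have hP := abs_nonneg p
  have hQ := abs_nonneg q
  -- (i)
  have hi : |τ ^ 2 * X * q| ≤ 1 / 4 * (p ^ 2 + q ^ 2) := by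
    rw [abs_mul, abs_of_nonneg (by positivity)]
    have h4 : τ ^ 2 * X ≤ 1 / 8 * (|p| + |q|) := by
      have h5 : τ ^ 2 * X ≤ τ * X * (M * (|p| + |q|)) := by
        have : τ * X * τ ≤ τ * X * (M * (|p| + |q|)) :=
          mul_le_mul_of_nonneg_left hτM (by positivity)
        have h6 : τ ^ 2 * X = τ * X * τ := by ring
        linarith
      have h6 : τ * X * (M * (|p| + |q|)) ≤ 1 / 8 * (|p| + |q|) := by
        have : τ * X * M * (|p| + |q|) ≤ 1 / 8 * (|p| + |q|) :=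
          mul_le_mul_of_nonneg_right h2 (by positivity)
        linarith
      linarith
    have h5 : τ ^ 2 * X * |q| ≤ 1 / 8 * (|p| + |q|) * |q| := mul_le_mul_of_nonneg_right h4 hQ
    rw [hpq, hqq]
    have h6 := sq_nonneg (|p| - |q|)
    have h7 := sq_nonneg |p|
    have h8 := sq_nonneg |q|
    linarith
  -- (ii)
  have hdec : p * (-(b * c) / r) + q * n = (1 - lam) * u * a * ((1 - c) - b' * u) + l' * c * n := by
    have h4 : p * (-(b * c) / r) = -((1 - lam) * u * c) * (b * (1 / r ^ 2)) := by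
      rw [hp]; field_simp
    have h5 : b * (1 / r ^ 2) = a - b * a ^ 2 := by linarith
    rw [h4, h5, hq, hn]
    ring
  have hii1 : |T * ((1 - lam) * u * a * ((1 - c) - b' * u))| ≤ 16 * p ^ 2 := by
    have h4 : |(1 - c) - b' * u| ≤ (|u| + |b'|) * |u| := by
      have h5 : |(1 - c) - b' * u| ≤ |1 - c| + |b' * u| := abs_sub _ _
      have h6 : |1 - c| ≤ |u| * |u| := by
        rw [abs_of_nonneg (by linarith), ← sq, sq_abs]
        have h7 : 0 ≤ (1 - c) * c := mul_nonneg (by linarith) (by linarith)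
        linarith
      rw [abs_mul] at h5
      linarith
    rw [abs_mul, abs_mul, abs_mul, abs_mul, abs_of_nonneg (by linarith : 0 ≤ 1 - lam),
      abs_of_pos ha0]
    have h5 : |T| * ((1 - lam) * |u| * a * |1 - c - b' * u|) ≤
        |T| * (1 * |u| * a * ((|u| + |b'|) * |u|)) := by
      gcongr
      linarith
    have h6 : |T| * (1 * |u| * a * ((|u| + |b'|) * |u|)) = (|T| * a * (|u| + |b'|)) * |u| ^ 2 := by
      ring
    have h7 : (|T| * a * (|u| + |b'|)) * |u| ^ 2 ≤ 1 * |u| ^ 2 :=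
      mul_le_mul_of_nonneg_right h1 (by positivity)
    have h8 : |u| ^ 2 ≤ (4 * |p|) ^ 2 := pow_le_pow_left₀ (abs_nonneg u) hup 2
    rw [hpq]
    linarith
  have hii2 : -(18 * (p ^ 2 + q ^ 2)) ≤ T * (l' * c * n) := by
    have hlcn : 0 ≤ l' * c * n := mul_nonneg (mul_nonneg hl'0 (by linarith)) hn0
    rcases le_or_gt (r - 1) (1 / 2) with h4 | h4
    · rw [hl'z h4]
      simp only [zero_mul, mul_zero]
      have := add_nonneg (sq_nonneg p) (sq_nonneg q)
      linarith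
    · have h5 : -(b * |u|) ≤ T := by
        rw [hT]
        have := mul_le_mul_of_nonneg_left (le_abs_self u) hb0
        linarith
      have h6 : -(b * |u|) * (l' * c * n) ≤ T * (l' * c * n) :=
        mul_le_mul_of_nonneg_right h5 hlcn
      have h7 : b * |u| * (l' * c * n) ≤ 18 * (p ^ 2 + q ^ 2) := by
        have h8 : l' * c * n ≤ (|q| + a * r * |p|) * 2 :=
          mul_le_mul hlc hn2 hn0 (by positivity)
        have h9 : b * |u| * (l' * c * n) ≤ b * (4 * |p|) * ((|q| + a * r * |p|) * 2) := by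
          gcongr
        have h10 : b * (4 * |p|) * ((|q| + a * r * |p|) * 2) =
            8 * (b * (|p| * |q|)) + 8 * ((a * b) * (r * |p| ^ 2)) := by ring
        have h11 : b * (|p| * |q|) ≤ 1 / 2 * (|p| * |q|) :=
          mul_le_mul_of_nonneg_right hb1 (by positivity)
        have h12 : (a * b) * (r * |p| ^ 2) ≤ 1 * (2 * |p| ^ 2) :=
          mul_le_mul hab (mul_le_mul_of_nonneg_right hr2 (by positivity)) (by positivity)
            (by norm_num)
        rw [hpq, hqq]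
        have h13 := sq_nonneg (|p| - |q|)
        have h14 := sq_nonneg |q|
        linarith
      linarith
  -- (iii)
  have hiii : |T * n * (τ ^ 2 * X)| ≤ 4 * (p ^ 2 + q ^ 2) := by
    rw [abs_mul, abs_mul, abs_of_nonneg hn0, abs_of_nonneg (by positivity : 0 ≤ τ ^ 2 * X)]
    have h4 : τ ^ 2 ≤ (M * (|p| + |q|)) ^ 2 := pow_le_pow_left₀ hτ0 hτM 2
    have h5 : |T| * n * (τ ^ 2 * X) ≤ |T| * 2 * ((M * (|p| + |q|)) ^ 2 * X) := by
      gcongr
    have h6 : |T| * 2 * ((M * (|p| + |q|)) ^ 2 * X) = (|T| * X * M ^ 2) * (2 * (|p| + |q|) ^ 2) := by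
      ring
    have h7 : (|T| * X * M ^ 2) * (2 * (|p| + |q|) ^ 2) ≤ 1 * (2 * (|p| + |q|) ^ 2) :=
      mul_le_mul_of_nonneg_right h3 (by positivity)
    rw [hpq, hqq]
    have h8 := sq_nonneg (|p| - |q|)
    linarith
  have hexp : p * (p + 1 / 100 * T * (-(b * c) / r)) + (q + τ ^ 2 * X) * (q + 1 / 100 * T * n) =
      (p ^ 2 + q ^ 2) + τ ^ 2 * X * q + 1 / 100 * (T * (p * (-(b * c) / r) + q * n)) +
        1 / 100 * (T * n * (τ ^ 2 * X)) := by ring
  rw [hexp, hdec, mul_add T]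
  have e1 := (abs_le.mp hi).1
  have e2 := (abs_le.mp hii1).1
  have e3 := (abs_le.mp hiii).1
  have e4 := sq_nonneg p
  have e5 := sq_nonneg q
  linarith

end Pool.Agent.Helper44.NCL
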