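import Pool.Agent.Helper44.NCSpiralLyap

/-!
# The spiral potential: module S3 (`SpiralLyapunov`), assembly
-/

set_option autoImplicit false

namespace Pool.Agent.Helper44.NCL

open Pool.Agent.Helper79.NC
open scoped ContDiff Topology

theorem contDiffAt_VF (t₁ : ℝ) {x : ℂ} (hx : 1 < ‖x‖) : ContDiffAt ℝ ∞ (VF t₁) x := by
  have hne := ne_of_one_lt hx
  have hn : ‖x‖ ≠ 0 := norm_ne_zero_iff.mpr hne
  have h1 : ‖x‖ - 1 ≠ 0 := by linarith
  have hN : ContDiffAt ℝ ∞ (fun w : ℂ => ‖w‖) x := contDiffAt_norm ℝ hne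
  have hre : ContDiffAt ℝ ∞ (fun w : ℂ => w.re) x := Complex.reCLM.contDiff.contDiffAt
  have him : ContDiffAt ℝ ∞ (fun w : ℂ => w.im) x := Complex.imCLM.contDiff.contDiffAt
  have hi : ContDiffAt ℝ ∞ (fun w : ℂ => 1 / (‖w‖ - 1)) x :=
    contDiffAt_const.div (hN.sub contDiffAt_const) h1
  have hc : ContDiffAt ℝ ∞ (fun w : ℂ => Real.cos (1 / (‖w‖ - 1))) x := hi.cos
  have hs : ContDiffAt ℝ ∞ (fun w : ℂ => Real.sin (1 / (‖w‖ - 1))) x := hi.sin
  have hcS : ContDiffAt ℝ ∞ cS x := by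
    have : cS = fun w : ℂ =>
      (w.re * Real.cos (1 / (‖w‖ - 1)) + w.im * Real.sin (1 / (‖w‖ - 1))) / ‖w‖ := by
      funext w; exact cS_eq w
    rw [this]
    exact ((hre.mul hc).add (him.mul hs)).div hN hn
  have huS : ContDiffAt ℝ ∞ uS x := by
    have : uS = fun w : ℂ =>
      (w.im * Real.cos (1 / (‖w‖ - 1)) - w.re * Real.sin (1 / (‖w‖ - 1))) / ‖w‖ := by
      funext w; exact uS_eq w
    rw [this]
    exact ((him.mul hc).sub (hre.mul hs)).div hN hn
  have hlam : ContDiffAt ℝ ∞ (fun w : ℂ => spLam (‖w‖ - 1)) x := by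
    have h2 : ContDiff ℝ ∞ spLam := Real.smoothTransition.contDiff.comp (by fun_prop)
    exact h2.contDiffAt.comp x (hN.sub contDiffAt_const)
  have hτ : ContDiffAt ℝ ∞ spTau x :=
    contDiffAt_const.sub ((contDiffAt_const.sub hlam).mul hcS)
  have hb : ContDiffAt ℝ ∞ (fun w : ℂ => bF ‖w‖) x :=
    ContDiffAt.comp x (bF_contDiffAt hx) hN
  have hT : ContDiffAt ℝ ∞ (TF t₁) x :=
    ((hN.sub contDiffAt_const).sub contDiffAt_const).sub (hb.mul huS)
  exact hτ.add (contDiffAt_const.mul (hT.pow 2))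

theorem frame_pair {x : ℂ} (hx : x ≠ 0) (f : ℂ →L[ℝ] ℝ) (p q κ₁ κ₂ : ℝ)
    (hf : f = κ₁ • angF x + κ₂ • radF x) :
    (p • angF x + q • radF x) (⟨f 1, f Complex.I⟩ : ℂ) = p * κ₁ + q * κ₂ := by
  have h1 := unit_frame hx
  have hf1 : f 1 = -(κ₁ * (x.im / ‖x‖)) + κ₂ * (x.re / ‖x‖) := by
    rw [hf]
    simp only [add_apply, smul_apply, smul_eq_mul, angF_apply, radF_apply, Complex.one_re,
      Complex.one_im]
    ring
  have hf2 : f Complex.I = κ₁ * (x.re / ‖x‖) + κ₂ * (x.im / ‖x‖) := by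
    rw [hf]
    simp only [add_apply, smul_apply, smul_eq_mul, angF_apply, radF_apply, Complex.I_re,
      Complex.I_im]
    ring
  simp only [add_apply, smul_apply, smul_eq_mul, angF_apply, radF_apply, hf1, hf2]
  linear_combination (p * κ₁ + q * κ₂) * h1

theorem bF_facts {r : ℝ} (hr : 1 < r) :
    0 < bF r ∧ bF r ≤ (r - 1) ^ 2 ∧ 1 / (r - 1) ^ 2 * bF r < 1 ∧
      bF r * ((1 / (r - 1) ^ 2) ^ 2 + 1 / r ^ 2) = 1 / (r - 1) ^ 2 := by
  have ht : 0 < r - 1 := by linarith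
  have hd := bF_den_pos hr
  have hr0 : 0 < r := by linarith
  refine ⟨?_, ?_, ?_, ?_⟩
  · unfold bF; positivity
  · unfold bF
    rw [div_le_iff₀ hd]
    have : 0 ≤ (r - 1) ^ 2 * (r - 1) ^ 4 := by positivity
    nlinarith
  · unfold bF
    have h1 : 1 / (r - 1) ^ 2 * ((r - 1) ^ 2 * r ^ 2 / (r ^ 2 + (r - 1) ^ 4)) =
        r ^ 2 / (r ^ 2 + (r - 1) ^ 4) := by field_simp
    rw [h1, div_lt_one hd]
    have : 0 < (r - 1) ^ 4 := by positivity
    linarith
  · unfold bF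
    field_simp

theorem growth {t₁ : ℝ} {z : ℂ} (hz : 1 < ‖z‖) (ht₁ : t₁ = ‖z‖ - 1) (ht : t₁ ≤ 1 / 2)
    (hc : cS z = 1) (hu : uS z = 0) :
    ∃ k : ℝ, 0 < k ∧ ∀ᶠ x in 𝓝 z, VF t₁ z + k * ‖x - z‖ ^ 2 ≤ VF t₁ x := by
  have hne := ne_of_one_lt hz
  have hTz : TF t₁ z = 0 := by unfold TF; rw [hu, ht₁]; ring
  have hVz : VF t₁ z = 0 := by
    unfold VF
    rw [hTz, spTau_eq, hc, spLam_zero (by linarith)]
    norm_num
  have hF : HasFDerivAt (fun x => (uS x, TF t₁ x)) ((cS z • dTh z).prod (dTF z)) z :=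
    (hasFDerivAt_uS hz).prodMk (hasFDerivAt_TF t₁ hz)
  set a : ℝ := 1 / (‖z‖ - 1) ^ 2 with ha
  have ha0 : 0 < a := by
    have : 0 < ‖z‖ - 1 := by linarith
    rw [ha]; positivity
  have hr2 : ‖z‖ ≤ 2 := by linarith
  obtain ⟨hb0, hb1, -, -⟩ := bF_facts hz
  have hb2 : bF ‖z‖ ≤ 1 := by nlinarith
  have hanti : ∀ Y : ℂ, ‖Y‖ ≤ (4 + 4 * a) * ‖((cS z • dTh z).prod (dTF z)) Y‖ := by
    intro Y
    set P : ℝ := dTh z Y with hP
    set Q : ℝ := dTF z Y with hQ
    have h1 : ((cS z • dTh z).prod (dTF z)) Y = (P, Q) := by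
      simp [hc, hP, hQ]
    rw [h1]
    have hP' : |P| ≤ ‖(P, Q)‖ := norm_fst_le (P, Q)
    have hQ' : |Q| ≤ ‖(P, Q)‖ := norm_snd_le (P, Q)
    set S := ‖(P, Q)‖ with hS
    have hS0 : 0 ≤ S := norm_nonneg _
    have hR : radF z Y = Q + bF ‖z‖ * P := by
      rw [hQ, hP]
      simp only [dTF, sub_apply, smul_apply, smul_eq_mul, hu, hc]
      ring
    have hA : angF z Y = ‖z‖ * (P - a * radF z Y) := by
      have hn : ‖z‖ ≠ 0 := norm_ne_zero_iff.mpr hne
      rw [hP, dTh_apply, ha]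
      field_simp
      ring
    have hR' : |radF z Y| ≤ 2 * S := by
      rw [hR]
      have h2 : |bF ‖z‖ * P| ≤ 1 * S := by
        rw [abs_mul, abs_of_pos hb0]
        exact mul_le_mul hb2 hP' (abs_nonneg _) (by norm_num)
      have := abs_add_le Q (bF ‖z‖ * P)
      linarith
    have hA' : |angF z Y| ≤ 2 * (S + a * (2 * S)) := by
      rw [hA, abs_mul, abs_of_nonneg (norm_nonneg z)]
      refine mul_le_mul hr2 ?_ (abs_nonneg _) (by norm_num)
      have h2 : |a * radF z Y| ≤ a * (2 * S) := by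
        rw [abs_mul, abs_of_pos ha0]
        exact mul_le_mul_of_nonneg_left hR' ha0.le
      have := abs_sub P (a * radF z Y)
      linarith
    have h3 : ‖Y‖ ^ 2 ≤ (|radF z Y| + |angF z Y|) ^ 2 := by
      rw [normSq_frame hne Y, ← sq_abs (radF z Y), ← sq_abs (angF z Y)]
      nlinarith [abs_nonneg (radF z Y), abs_nonneg (angF z Y)]
    have h4 : ‖Y‖ ≤ |radF z Y| + |angF z Y| :=
      le_of_sq_le_sq h3 (by positivity)
    linarith
  set D : ℝ := 2 * (4 + 4 * a) with hD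
  have hD0 : 0 < D := by positivity
  have hD' : ∀ᶠ x in 𝓝 z, ‖x - z‖ ≤ D * ‖(uS x, TF t₁ x) - (uS z, TF t₁ z)‖ := by
    have hO := hF.isLittleO.def (c := 1 / D) (by positivity)
    filter_upwards [hO] with x hx
    have h1 := hanti (x - z)
    have h2 : ‖((cS z • dTh z).prod (dTF z)) (x - z)‖ ≤
        ‖(uS x, TF t₁ x) - (uS z, TF t₁ z)‖ + 1 / D * ‖x - z‖ := by
      have h3 : ((cS z • dTh z).prod (dTF z)) (x - z) =
          ((uS x, TF t₁ x) - (uS z, TF t₁ z)) -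
          ((uS x, TF t₁ x) - (uS z, TF t₁ z) - ((cS z • dTh z).prod (dTF z)) (x - z)) := by
        abel
      have h4 := norm_sub_le ((uS x, TF t₁ x) - (uS z, TF t₁ z))
        ((uS x, TF t₁ x) - (uS z, TF t₁ z) - ((cS z • dTh z).prod (dTF z)) (x - z))
      rw [← h3] at h4
      linarith
    have h5 : (4 + 4 * a) * (1 / D * ‖x - z‖) = 1 / 2 * ‖x - z‖ := by
      rw [hD]; field_simp
    have h6 : (4 + 4 * a) * ‖((cS z • dTh z).prod (dTF z)) (x - z)‖ ≤ (4 + 4 * a) *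
        (‖(uS x, TF t₁ x) - (uS z, TF t₁ z)‖ + 1 / D * ‖x - z‖) :=
      mul_le_mul_of_nonneg_left h2 (by positivity)
    rw [mul_add, h5] at h6
    rw [hD]
    linarith
  refine ⟨1 / (200 * D ^ 2), by positivity, ?_⟩
  have e1 : ∀ᶠ w : ℂ in 𝓝 z, 1 < ‖w‖ := continuous_norm.continuousAt.eventually_const_lt hz
  have e2 : ∀ᶠ w : ℂ in 𝓝 z, 0 < cS w :=
    (hasFDerivAt_cS hz).continuousAt.eventually_const_lt (by rw [hc]; norm_num)
  filter_upwards [hD', e1, e2] with x hx h1 h2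
  rw [hVz, zero_add]
  have h3 : ‖x - z‖ ≤ D * ‖(uS x, TF t₁ x)‖ := by
    have h4 : (uS x, TF t₁ x) - (uS z, TF t₁ z) = (uS x, TF t₁ x) := by
      rw [hu, hTz]; simp
    simpa only [h4] using hx
  have h4 : ‖(uS x, TF t₁ x)‖ ^ 2 ≤ uS x ^ 2 + TF t₁ x ^ 2 := by
    rw [Prod.norm_def]
    have hmax : ∀ a b : ℝ, (max ‖a‖ ‖b‖) ^ 2 ≤ a ^ 2 + b ^ 2 := by
      intro a b
      rcases max_cases ‖a‖ ‖b‖ with h | h
      · rw [h.1, Real.norm_eq_abs, sq_abs]
        nlinarith [sq_nonneg b]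
      · rw [h.1, Real.norm_eq_abs, sq_abs]
        nlinarith [sq_nonneg a]
    exact hmax _ _
  have h5 : ‖x - z‖ ^ 2 ≤ D ^ 2 * (uS x ^ 2 + TF t₁ x ^ 2) := by
    have h6 : ‖x - z‖ ^ 2 ≤ (D * ‖(uS x, TF t₁ x)‖) ^ 2 := pow_le_pow_left₀ (norm_nonneg _) h3 2
    have h7 : D ^ 2 * ‖(uS x, TF t₁ x)‖ ^ 2 ≤ D ^ 2 * (uS x ^ 2 + TF t₁ x ^ 2) :=
      mul_le_mul_of_nonneg_left h4 (by positivity)
    nlinarith
  have h6 : 1 / (200 * D ^ 2) * ‖x - z‖ ^ 2 ≤ 1 / 200 * (uS x ^ 2 + TF t₁ x ^ 2) := by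
    rw [div_mul_eq_mul_div, div_le_iff₀ (by positivity)]
    nlinarith
  have h7 := sq_add_sq (ne_of_one_lt h1)
  have h8 : cS x ≤ 1 := by nlinarith [sq_nonneg (uS x)]
  have h9 : 1 / 2 * uS x ^ 2 ≤ spTau x := by
    rw [spTau_eq]
    have := spLam_nonneg (‖x‖ - 1)
    have h10 : 0 ≤ spLam (‖x‖ - 1) * cS x := mul_nonneg this h2.le
    nlinarith [sq_nonneg (uS x)]
  unfold VF
  nlinarith [sq_nonneg (uS x)]

end Pool.Agent.Helper44.NCL

namespace Pool.Agent.Helper79.NC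

open scoped ContDiff Topology

open Pool.Agent.Helper44.NCL in
/-- Module S3. -/
theorem spiralLyapunov : SpiralLyapunov := by
  intro N K hN hK z hz hz0
  obtain ⟨ht, hc, hu⟩ := strand hz hz0
  have hne := ne_of_one_lt hz
  set t₁ := ‖z‖ - 1 with ht₁
  have ht0 : 0 < t₁ := by rw [ht₁]; linarith
  obtain ⟨k, hk, hgr⟩ := growth hz ht₁ ht hc hu
  have hV2 : ContDiffAt ℝ 2 (VF t₁) z := (contDiffAt_VF t₁ hz).of_le (by norm_cast)
  have hconv := hess_pos hk hV2 hgr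
  -- continuity at `z`
  have cN : ContinuousAt (fun x : ℂ => ‖x‖) z := continuous_norm.continuousAt
  have cu : ContinuousAt uS z := (hasFDerivAt_uS hz).continuousAt
  have cc : ContinuousAt cS z := (hasFDerivAt_cS hz).continuousAt
  have cτ : ContinuousAt spTau z := (hasFDerivAt_spTau hz).continuousAt
  have cT : ContinuousAt (TF t₁) z := (hasFDerivAt_TF t₁ hz).continuousAt
  have cb : ContinuousAt (fun x : ℂ => bF ‖x‖) z :=
    ContinuousAt.comp (f := fun x : ℂ => ‖x‖) (g := bF) (bF_contDiffAt hz).continuousAt cN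
  have cb' : ContinuousAt (fun x : ℂ => deriv bF ‖x‖) z := by
    have h1 : ContDiffAt ℝ 0 (fderiv ℝ bF) ‖z‖ :=
      (bF_contDiffAt hz).fderiv_right (by norm_cast)
    have h2 : ContinuousAt (deriv bF) ‖z‖ := by
      have h3 : ContDiffAt ℝ 0 (fun s => fderiv ℝ bF s 1) ‖z‖ := h1.clm_apply contDiffAt_const
      exact h3.continuousAt
    exact ContinuousAt.comp (f := fun x : ℂ => ‖x‖) (g := deriv bF) h2 cN
  have ca : ContinuousAt (fun x : ℂ => 1 / (‖x‖ - 1) ^ 2) z :=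
    continuousAt_const.div ((cN.sub continuousAt_const).pow 2) (pow_ne_zero 2 (by linarith))
  have cX : ContinuousAt (fun x : ℂ => 7 * K * ((‖x‖ - 1) ^ 8)⁻¹) z :=
    continuousAt_const.mul (((cN.sub continuousAt_const).pow 8).inv₀
      (pow_ne_zero 8 (by simp only [Pi.sub_apply]; linarith)))
  have cM : ContinuousAt (fun x : ℂ => 4 + 4 * (1 / (‖x‖ - 1) ^ 2) * ‖x‖) z :=
    continuousAt_const.add ((continuousAt_const.mul ca).mul cN)
  have cL : ContinuousAt (fun x : ℂ => spLam (‖x‖ - 1)) z := by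
    have h2 : ContDiff ℝ ∞ spLam := Real.smoothTransition.contDiff.comp (by fun_prop)
    exact ContinuousAt.comp (f := fun x : ℂ => ‖x‖ - 1) (g := spLam)
      h2.continuous.continuousAt (cN.sub continuousAt_const)
  have hTz : TF t₁ z = 0 := by unfold TF; rw [hu, ← ht₁]; ring
  have hτz : spTau z = 0 := by
    rw [spTau_eq, hc, spLam_zero (by linarith)]; norm_num
  obtain ⟨hb0z, hb1z, habz, -⟩ := bF_facts hz
  -- the neighbourhood
  have E0 : ∀ᶠ x : ℂ in 𝓝 z, 1 < ‖x‖ := cN.eventually_const_lt hz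
  have E1 : ∀ᶠ x : ℂ in 𝓝 z, 1 / 2 < cS x := cc.eventually_const_lt (by rw [hc]; norm_num)
  have E2 : ∀ᶠ x : ℂ in 𝓝 z, spLam (‖x‖ - 1) < 1 / 2 :=
    cL.eventually_lt_const (by beta_reduce; rw [spLam_zero (by linarith)]; norm_num)
  have E3 : ∀ᶠ x : ℂ in 𝓝 z, ‖x‖ < 1 + 5 / 8 := cN.eventually_lt_const (by linarith)
  have cn : ContinuousAt (fun x : ℂ => 1 - deriv bF ‖x‖ * uS x -
      bF ‖x‖ * cS x * (1 / (‖x‖ - 1) ^ 2)) z :=
    (continuousAt_const.sub (cb'.mul cu)).sub ((cb.mul cc).mul ca)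
  have hnz : 1 - deriv bF ‖z‖ * uS z - bF ‖z‖ * cS z * (1 / (‖z‖ - 1) ^ 2) =
      1 - 1 / (‖z‖ - 1) ^ 2 * bF ‖z‖ := by rw [hu, hc]; ring
  have E4 : ∀ᶠ x : ℂ in 𝓝 z, 0 < 1 - deriv bF ‖x‖ * uS x -
      bF ‖x‖ * cS x * (1 / (‖x‖ - 1) ^ 2) :=
    cn.eventually_const_lt (by beta_reduce; rw [hnz]; linarith)
  have E5 : ∀ᶠ x : ℂ in 𝓝 z, 1 - deriv bF ‖x‖ * uS x -
      bF ‖x‖ * cS x * (1 / (‖x‖ - 1) ^ 2) < 2 :=
    cn.eventually_lt_const (by
      beta_reduce
      rw [hnz]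
      have : 0 < 1 / (‖z‖ - 1) ^ 2 * bF ‖z‖ := by
        have : 0 < ‖z‖ - 1 := by linarith
        positivity
      linarith)
  have E6 : ∀ᶠ x : ℂ in 𝓝 z, |TF t₁ x| * (1 / (‖x‖ - 1) ^ 2) * (|uS x| + |deriv bF ‖x‖|) < 1 :=
    ((cT.abs.mul ca).mul (cu.abs.add cb'.abs)).eventually_lt_const (by
      simp only [Pi.mul_apply, hTz, abs_zero, zero_mul]; norm_num)
  have E7 : ∀ᶠ x : ℂ in 𝓝 z, spTau x * (7 * K * ((‖x‖ - 1) ^ 8)⁻¹) *
      (4 + 4 * (1 / (‖x‖ - 1) ^ 2) * ‖x‖) < 1 / 8 :=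
    ((cτ.mul cX).mul cM).eventually_lt_const (by
      simp only [Pi.mul_apply, hτz, zero_mul]; norm_num)
  have E8 : ∀ᶠ x : ℂ in 𝓝 z, |TF t₁ x| * (7 * K * ((‖x‖ - 1) ^ 8)⁻¹) *
      (4 + 4 * (1 / (‖x‖ - 1) ^ 2) * ‖x‖) ^ 2 < 1 :=
    ((cT.abs.mul cX).mul (cM.pow 2)).eventually_lt_const (by
      simp only [Pi.mul_apply, hTz, abs_zero, zero_mul]; norm_num)
  have hall := hconv.and (E0.and (E1.and (E2.and (E3.and (E4.and (E5.and (E6.and (E7.and E8))))))))
  obtain ⟨ρ, hρ, hball⟩ := Metric.eventually_nhds_iff_ball.mp hall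
  refine ⟨VF t₁, ρ, hρ, ?_, ?_⟩
  · intro x hx
    have h1 := (hball x hx).2.1
    exact ((contDiffAt_VF t₁ h1).of_le (by norm_cast)).contDiffWithinAt
  · intro x hx
    obtain ⟨hcx, e0, e1, e2, e3, e4, e5, e6, e7, e8⟩ := hball x hx
    refine ⟨hcx, ?_⟩
    have hnx := ne_of_one_lt e0
    have hn0 : ‖x‖ ≠ 0 := norm_ne_zero_iff.mpr hnx
    have hsq := sq_add_sq hnx
    have hc1 : cS x ≤ 1 := by nlinarith [sq_nonneg (uS x)]
    rcases le_or_gt (spTau x) 0 with hτ | hτ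
    · -- on the strand the gradient vanishes
      have hΦ0 : spiral N K x = 0 := by
        unfold spiral
        rw [if_neg (not_le.mpr e0), if_pos hτ]
      have hmin : IsLocalMin (spiral N K) x := by
        filter_upwards with y
        rw [hΦ0]
        unfold spiral
        split_ifs
        · exact le_refl _
        · exact le_refl _
        · exact (Real.exp_pos _).le
      have h1 : fderiv ℝ (spiral N K) x = 0 := hmin.fderiv_eq_zero
      have h2 : gradC (spiral N K) x = 0 := by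
        unfold gradC
        rw [h1]
        rfl
      rw [h2, map_zero]
    · have hΦ : 0 < spiral N K x := by
        unfold spiral
        rw [if_neg (not_le.mpr e0), if_neg (not_le.mpr hτ)]
        exact Real.exp_pos _
      have hfd := (hasFDerivAt_spiral N K e0 hτ).fderiv
      have hVd := (hasFDerivAt_VF t₁ e0).fderiv
      rw [hVd]
      set a := 1 / (‖x‖ - 1) ^ 2 with ha
      set X := 7 * K * ((‖x‖ - 1) ^ 8)⁻¹ with hX
      have hX0 : 0 < X := by
        rw [hX]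
        have : 0 < ‖x‖ - 1 := by linarith
        positivity
      set lam := spLam (‖x‖ - 1) with hlam
      set l' := deriv spLam (‖x‖ - 1) with hl'
      set p := (1 - lam) * uS x / ‖x‖ with hp
      set q := (1 - lam) * uS x * a + l' * cS x with hq
      set n := 1 - deriv bF ‖x‖ * uS x - bF ‖x‖ * cS x * a with hn
      have hτe : dTau x = p • angF x + q • radF x := by
        refine ContinuousLinearMap.ext fun Y => ?_
        simp only [dTau, add_apply, smul_apply, smul_eq_mul, dTh_apply]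
        rw [hp, hq]
        ring
      have hTe : dTF x = (-(bF ‖x‖ * cS x) / ‖x‖) • angF x + n • radF x := by
        refine ContinuousLinearMap.ext fun Y => ?_
        simp only [dTF, add_apply, sub_apply, smul_apply, smul_eq_mul, dTh_apply]
        rw [hn]
        ring
      have hfe : fderiv ℝ (spiral N K) x =
          (spiral N K x * N * ((spTau x) ^ 2)⁻¹ * p) • angF x +
            (spiral N K x * N * (X + ((spTau x) ^ 2)⁻¹ * q)) • radF x := by
        rw [hfd, hτe]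
        refine ContinuousLinearMap.ext fun Y => ?_
        simp only [add_apply, smul_apply, smul_eq_mul]
        ring
      have hVe : dTau x + (1 / 100 * TF t₁ x) • dTF x =
          (p + 1 / 100 * TF t₁ x * (-(bF ‖x‖ * cS x) / ‖x‖)) • angF x +
            (q + 1 / 100 * TF t₁ x * n) • radF x := by
        rw [hτe, hTe]
        refine ContinuousLinearMap.ext fun Y => ?_
        simp only [add_apply, smul_apply, smul_eq_mul]
        ring
      rw [hVe]
      unfold gradC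
      rw [frame_pair hnx _ _ _ _ _ hfe]
      obtain ⟨f1, f2, f3, f4⟩ := bF_facts e0
      have hkey := key_ineq (r := ‖x‖) (a := a) (lam := lam) (l' := l') (c := cS x) (u := uS x)
        (b := bF ‖x‖) (b' := deriv bF ‖x‖) (X := X) (T := TF t₁ x) (τ := spTau x) (t₁ := t₁)
        e0 (by linarith) ha hsq e1.le (spLam_nonneg _) e2.le (deriv_spLam_nonneg _)
        (spLam_le_deriv (by linarith)) f1.le (by nlinarith) f3.le f4 e4.le e5.le
        (spTau_eq x) hX0.le rfl ht (fun h => deriv_spLam_zero h) e6.le e7.le e8.le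
      have hfac : (p + 1 / 100 * TF t₁ x * (-(bF ‖x‖ * cS x) / ‖x‖)) *
          (spiral N K x * N * (spTau x ^ 2)⁻¹ * p) +
          (q + 1 / 100 * TF t₁ x * n) * (spiral N K x * N * (X + (spTau x ^ 2)⁻¹ * q)) =
          (spiral N K x * N * (spTau x ^ 2)⁻¹) *
          (p * (p + 1 / 100 * TF t₁ x * (-(bF ‖x‖ * cS x) / ‖x‖)) +
            (q + spTau x ^ 2 * X) * (q + 1 / 100 * TF t₁ x * n)) := by
        have : spTau x ≠ 0 := hτ.ne'
        field_simp
        ring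
      rw [hfac]
      exact mul_nonneg (by positivity) hkey

end Pool.Agent.Helper79.NC
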