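import Pool.Agent.Helper79.NC.Spec

/-!
# The spiral potential: elementary formulas, and module S4 (`SpiralPath`)
-/

set_option autoImplicit false

namespace Pool.Agent.Helper44.NCL

open Pool.Agent.Helper79.NC

/-- cosine of the angle -/
noncomputable def cS (w : ℂ) : ℝ := (spE w).re

/-- sine of the angle -/
noncomputable def uS (w : ℂ) : ℝ := (spE w).im

theorem exp_negI (s : ℝ) :
    Complex.exp (-((s : ℂ) * Complex.I)) = ⟨Real.cos s, -Real.sin s⟩ := by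
  have h : -((s : ℂ) * Complex.I) = ((-s : ℝ) : ℂ) * Complex.I := by push_cast; ring
  rw [h]
  apply Complex.ext
  · rw [Complex.exp_ofReal_mul_I_re, Real.cos_neg]
  · rw [Complex.exp_ofReal_mul_I_im, Real.sin_neg]

theorem cS_eq (w : ℂ) :
    cS w = (w.re * Real.cos (1 / (‖w‖ - 1)) + w.im * Real.sin (1 / (‖w‖ - 1))) / ‖w‖ := by
  unfold cS spE
  rw [exp_negI]
  rw [Complex.mul_re]
  simp only [Complex.div_ofReal_re, Complex.div_ofReal_im]
  ring

theorem uS_eq (w : ℂ) :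
    uS w = (w.im * Real.cos (1 / (‖w‖ - 1)) - w.re * Real.sin (1 / (‖w‖ - 1))) / ‖w‖ := by
  unfold uS spE
  rw [exp_negI]
  rw [Complex.mul_im]
  simp only [Complex.div_ofReal_re, Complex.div_ofReal_im]
  ring

theorem sq_add_sq {w : ℂ} (hw : w ≠ 0) : uS w ^ 2 + cS w ^ 2 = 1 := by
  have hn : ‖w‖ ≠ 0 := norm_ne_zero_iff.mpr hw
  have h1 : w.re ^ 2 + w.im ^ 2 = ‖w‖ ^ 2 := by
    rw [← Complex.normSq_eq_norm_sq, Complex.normSq_apply]; ring
  have h2 := Real.sin_sq_add_cos_sq (1 / (‖w‖ - 1))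
  rw [uS_eq, cS_eq]
  have h3 : (w.im * Real.cos (1 / (‖w‖ - 1)) - w.re * Real.sin (1 / (‖w‖ - 1))) ^ 2 +
      (w.re * Real.cos (1 / (‖w‖ - 1)) + w.im * Real.sin (1 / (‖w‖ - 1))) ^ 2 =
      (w.re ^ 2 + w.im ^ 2) * (Real.sin (1 / (‖w‖ - 1)) ^ 2 + Real.cos (1 / (‖w‖ - 1)) ^ 2) := by
    ring
  rw [div_pow, div_pow, ← add_div, h3, h1, h2, mul_one, div_self (pow_ne_zero 2 hn)]

theorem spLam_nonneg (t : ℝ) : 0 ≤ spLam t := Real.smoothTransition.nonneg _
theorem spLam_le_one (t : ℝ) : spLam t ≤ 1 := Real.smoothTransition.le_one _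

theorem spLam_pos {t : ℝ} (h : 1 / 2 < t) : 0 < spLam t :=
  Real.smoothTransition.pos_of_pos (by linarith)

theorem spLam_zero {t : ℝ} (h : t ≤ 1 / 2) : spLam t = 0 :=
  Real.smoothTransition.zero_of_nonpos (by linarith)

theorem spTau_eq (w : ℂ) : spTau w = 1 - (1 - spLam (‖w‖ - 1)) * cS w := rfl

/-- the strand -/
theorem strand {N K : ℝ} {w : ℂ} (hw : 1 < ‖w‖) (h : spiral N K w = 0) :
    ‖w‖ - 1 ≤ 1 / 2 ∧ cS w = 1 ∧ uS w = 0 := by
  have hne : w ≠ 0 := by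
    rintro rfl; simp at hw; linarith
  have h1 : ¬ ‖w‖ ≤ 1 := not_le.mpr hw
  have h2 : spTau w ≤ 0 := by
    by_contra h2
    unfold spiral at h
    rw [if_neg h1, if_neg h2] at h
    exact (Real.exp_ne_zero _) h
  have h3 := sq_add_sq hne
  have h4 : cS w ≤ 1 := by nlinarith [sq_nonneg (uS w)]
  have h5 := spLam_nonneg (‖w‖ - 1)
  have h6 := spLam_le_one (‖w‖ - 1)
  rw [spTau_eq] at h2
  have h7 : cS w = 1 := by
    by_contra hc
    have h8 : cS w < 1 := lt_of_le_of_ne h4 hc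
    rcases le_or_gt (cS w) 0 with h9 | h9
    · have : (1 - spLam (‖w‖ - 1)) * cS w ≤ 0 :=
        mul_nonpos_of_nonneg_of_nonpos (by linarith) h9
      linarith
    · have : (1 - spLam (‖w‖ - 1)) * cS w ≤ 1 * cS w :=
        mul_le_mul_of_nonneg_right (by linarith) h9.le
      linarith
  refine ⟨?_, h7, ?_⟩
  · by_contra ht
    have := spLam_pos (not_le.mp ht)
    rw [h7] at h2
    linarith
  · have : uS w ^ 2 = 0 := by rw [h7] at h3; linarith
    exact pow_eq_zero_iff (two_ne_zero) |>.mp this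

/-- on the strand `w/|w| = e^{i/(|w|-1)}` -/
theorem strand_exp {w : ℂ} (hw : w ≠ 0) (hc : cS w = 1) (hu : uS w = 0) :
    w / (‖w‖ : ℂ) = ⟨Real.cos (1 / (‖w‖ - 1)), Real.sin (1 / (‖w‖ - 1))⟩ := by
  have h1 : spE w = 1 := Complex.ext hc hu
  have h2 : w / (‖w‖ : ℂ) * Complex.exp (-(((1 / (‖w‖ - 1) : ℝ) : ℂ) * Complex.I)) = 1 := h1
  have h3 : w / (‖w‖ : ℂ) = Complex.exp (((1 / (‖w‖ - 1) : ℝ) : ℂ) * Complex.I) := by
    rw [Complex.exp_neg] at h2
    have h4 := Complex.exp_ne_zero (((1 / (‖w‖ - 1) : ℝ) : ℂ) * Complex.I)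
    rwa [mul_inv_eq_one₀ h4] at h2
  rw [h3]
  apply Complex.ext
  · rw [Complex.exp_ofReal_mul_I_re]
  · rw [Complex.exp_ofReal_mul_I_im]

end Pool.Agent.Helper44.NCL

namespace Pool.Agent.Helper79.NC

open Pool.Agent.Helper44.NCL in
/-- Module S4. -/
theorem spiralPath : SpiralPath := by
  intro N K hN hK z hz hzero h0
  by_contra h1
  push Not at h1
  -- the first time at which the disc is reached
  set S : Set ℝ := {s | s ∈ Set.Icc (0 : ℝ) 1 ∧ ‖z s‖ ≤ 1} with hS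
  have hcl : IsClosed S := by
    have h2 : ContinuousOn (fun s => ‖z s‖) (Set.Icc (0 : ℝ) 1) := hz.norm
    have h3 := h2.preimage_isClosed_of_isClosed isClosed_Icc (isClosed_Iic (a := (1 : ℝ)))
    exact h3
  have hne : S.Nonempty := ⟨1, ⟨by norm_num, by norm_num⟩, h1⟩
  have hbdd : BddBelow S := ⟨0, fun s hs => hs.1.1⟩
  set q := sInf S with hq
  have hqS : q ∈ S := hcl.csInf_mem hne hbdd
  have hq0 : 0 < q := by
    rcases hqS.1.1.lt_or_eq with h | h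
    · exact h
    · exfalso
      have h2 := hqS.2
      rw [← h] at h2
      linarith
  have hbefore : ∀ s, 0 ≤ s → s < q → 1 < ‖z s‖ := by
    intro s hs0 hs
    by_contra h2
    push Not at h2
    have : s ∈ S := ⟨⟨hs0, by linarith [hqS.1.2]⟩, h2⟩
    exact absurd (csInf_le hbdd this) (not_le.mpr hs)
  -- continuity of the direction at `q`
  have hcq : ContinuousWithinAt z (Set.Icc 0 1) q := hz q hqS.1
  have hzq : 1 ≤ ‖z q‖ := by
    have h2 : ContinuousWithinAt (fun s => ‖z s‖) (Set.Ico 0 q) q :=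
      (hcq.norm).mono (fun s hs => ⟨hs.1, by linarith [hqS.1.2, hs.2]⟩)
    have hcls : q ∈ closure (Set.Ico 0 q) := by
      rw [closure_Ico hq0.ne]
      exact ⟨hq0.le, le_refl q⟩
    have : (nhdsWithin q (Set.Ico 0 q)).NeBot := mem_closure_iff_nhdsWithin_neBot.mp hcls
    refine ge_of_tendsto h2 ?_
    filter_upwards [self_mem_nhdsWithin] with s hs
    exact (hbefore s hs.1 hs.2).le
  have hzq1 : ‖z q‖ = 1 := le_antisymm hqS.2 hzq
  have hzqne : z q ≠ 0 := by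
    intro h; rw [h] at hzq1; simp at hzq1
  have hdir : ContinuousWithinAt (fun s => z s / (‖z s‖ : ℂ)) (Set.Icc 0 1) q := by
    refine hcq.div (Complex.continuous_ofReal.continuousAt.comp_continuousWithinAt hcq.norm) ?_
    exact_mod_cast norm_ne_zero_iff.mpr hzqne
  obtain ⟨δ, hδ, hball⟩ : ∃ δ > 0, ∀ s ∈ Set.Icc (0 : ℝ) 1, dist s q < δ →
      dist (z s / (‖z s‖ : ℂ)) (z q / (‖z q‖ : ℂ)) < 1 / 2 := by
    have := Metric.continuousWithinAt_iff.mp hdir (1 / 2) (by norm_num)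
    obtain ⟨δ, h1, h2⟩ := this
    exact ⟨δ, h1, fun s hs h => h2 hs h⟩
  set s₀ := max 0 (q - δ / 2) with hs0
  have hs0q : s₀ < q := max_lt hq0 (by linarith)
  have hs00 : 0 ≤ s₀ := le_max_left _ _
  have hs01 : q - δ / 2 ≤ s₀ := le_max_right _ _
  have hcon : ContinuousOn (fun s => ‖z s‖ - 1) (Set.Icc s₀ q) :=
    (hz.norm.sub continuousOn_const).mono (fun s hs =>
      ⟨hs00.trans hs.1, hs.2.trans hqS.1.2⟩)
  have hstart : 0 < ‖z s₀‖ - 1 := by linarith [hbefore s₀ hs00 hs0q]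
  -- all small values of `|z| - 1` are attained
  have hivt : ∀ y : ℝ, 0 < y → y < ‖z s₀‖ - 1 → ∃ s ∈ Set.Icc (0 : ℝ) 1, dist s q < δ ∧
      ‖z s‖ - 1 = y := by
    intro y hy0 hy1
    have h2 := intermediate_value_Icc' hs0q.le hcon
    have h3 : y ∈ Set.Icc ((fun s => ‖z s‖ - 1) q) ((fun s => ‖z s‖ - 1) s₀) := by
      simp only [hzq1]
      exact ⟨by linarith, hy1.le⟩
    obtain ⟨s, hs, hsy⟩ := h2 h3
    refine ⟨s, ⟨hs00.trans hs.1, hs.2.trans hqS.1.2⟩, ?_, hsy⟩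
    rw [Real.dist_eq, abs_lt]
    constructor <;> linarith [hs.1, hs.2]
  have hval : ∀ θ : ℝ, 1 / (‖z s₀‖ - 1) < θ →
      dist (⟨Real.cos θ, Real.sin θ⟩ : ℂ) (z q / (‖z q‖ : ℂ)) < 1 / 2 := by
    intro θ hθ
    have hθ0 : 0 < θ := lt_trans (by positivity) hθ
    obtain ⟨s, hs, hd, hy⟩ := hivt (1 / θ) (by positivity) (by
      rw [div_lt_iff₀ hstart] at hθ
      rw [div_lt_iff₀ hθ0]
      linarith)
    have h2 : 1 < ‖z s‖ := by
      have : (0 : ℝ) < 1 / θ := by positivity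
      linarith
    obtain ⟨_, h4, h5⟩ := strand h2 (hzero s hs)
    have hne : z s ≠ 0 := by
      intro h; rw [h] at h2; simp at h2; linarith
    have h6 := strand_exp hne h4 h5
    rw [hy, one_div_one_div] at h6
    rw [← h6]
    exact hball s hs hd
  obtain ⟨n, hn⟩ := exists_nat_gt ((1 / (‖z s₀‖ - 1)) / (2 * Real.pi))
  have hpi := Real.pi_pos
  have hn' : 1 / (‖z s₀‖ - 1) < n * (2 * Real.pi) := by
    rwa [div_lt_iff₀ (by positivity)] at hn
  have hA := hval (n * (2 * Real.pi)) hn'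
  have hB := hval (n * (2 * Real.pi) + Real.pi) (by linarith)
  rw [Real.cos_nat_mul_two_pi] at hA
  rw [Real.cos_add_pi, Real.cos_nat_mul_two_pi] at hB
  have hre : ∀ a b : ℂ, |a.re - b.re| ≤ dist a b := by
    intro a b
    rw [Complex.dist_eq, ← Complex.sub_re]
    exact Complex.abs_re_le_norm _
  have h2 := hre (⟨1, Real.sin (n * (2 * Real.pi))⟩ : ℂ) (z q / (‖z q‖ : ℂ))
  have h3 := hre (⟨-1, Real.sin (n * (2 * Real.pi) + Real.pi)⟩ : ℂ) (z q / (‖z q‖ : ℂ))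
  have h4 := abs_lt.mp (lt_of_le_of_lt h2 hA)
  have h5 := abs_lt.mp (lt_of_le_of_lt h3 hB)
  simp only at h4 h5
  linarith [h4.1, h4.2, h5.1, h5.2]

end Pool.Agent.Helper79.NC
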